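import Pool.Agent.Q255.CV.Main

/-!
# MP_f6c7cf_nt: the numbers `2^x + 2^y + 2^z + 1` of `n` are not covered by few primes

For odd `n` the quadruples `(x, y, z, w)` of natural numbers with `n = x² + y² + z² + 4 w²` are
considered. The theorem says that for large `n` there are at least `n ^ (1 - ε)` of them for which
`2^x + 2^y + 2^z + 1` is divisible by none of `k` given primes, which may be of any size, nor by a
prime factor of `2 (2^K - 1)`, where `K ≤ n ^ δ`. The order of `2` modulo each of the given primes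
has to be admissible (for instance squarefree, if `3 ∣ n` or `n ≡ 13 mod 32`; and squarefree and not
divisible by `3` otherwise), or at least `n ^ κ`. In the second part all given primes have order at
least `n ^ κ`, and `k` may grow like `log n / log (K + 1)`.

The proof. Let `ρ` be a rational rotation of the plane with a denominator `N` which is prime to `D`
and such that `ρ` is the identity modulo `D`, a multiple of `K`. If `n = x² + y² + z² + (2w)²` and
if `x` and `2w` are divisible by a high power of `N`, then `ρ ^ e (x, 2w)` gives for `0 ≤ e ≤ 5k + 4`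
other representations with the same `y`, `z` and the same residues modulo `D`. For at least `k + 1`
exponents `e` the point is in the first quadrant. If a prime `p` divides the values of two of these
representations then their first coordinates are congruent modulo the order `m` of `2` modulo `p`;
two such coordinates determine `x` and `w`, so that this occurs for at most `n ^ (1 + η) / m`
representations (if `m ≤ √n`; for larger `m` for at most `n ^ (1/2 + η)`). For the other ones each of
the `k` primes divides at most one of the `k + 1` values. The lower bound for the number of the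
representations in the residue classes is a starting result, and so is the choice of a residue class
for which the values are prime to `2 (2^K - 1)`.
-/

set_option autoImplicit false

namespace Pool.Agent.Results.MP_f6c7cf_nt.CoveringPrimes

/-- the condition on `K` and on the orders: no prime `l ≥ 5` whose square divides `K` is a divisor of
`(3n-2)(9n-2)`, and `3 ∣ n` or `n ≡ 13 mod 32` or `3` does not divide `K` -/
def Admissible (n K : ℕ) : Prop :=
  (∀ l : ℕ, l.Prime → 5 ≤ l → l ^ 2 ∣ K → ¬ (l : ℤ) ∣ (3 * n - 2) * (9 * n - 2)) ∧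
    (3 ∣ n ∨ n % 32 = 13 ∨ ¬ 3 ∣ K)

/-- at least `n ^ (1 - ε)` quadruples of natural numbers with `n = x² + y² + z² + 4 w²` have a value
`2^x + 2^y + 2^z + 1` which is coprime to `2 (2^K - 1)` and divisible by no prime of `P` -/
def ManyAvoiding (n K : ℕ) (ε : ℝ) (P : Finset ℕ) : Prop :=
  ∃ S : Finset (ℕ × ℕ × ℕ × ℕ), (n : ℝ) ^ (1 - ε) ≤ (S.card : ℝ) ∧
    ∀ x y z w : ℕ, (x, y, z, w) ∈ S → n = x ^ 2 + y ^ 2 + z ^ 2 + 4 * w ^ 2 ∧
      Nat.Coprime (2 ^ x + 2 ^ y + 2 ^ z + 1) (2 * (2 ^ K - 1)) ∧
      ∀ p ∈ P, ¬ p ∣ 2 ^ x + 2 ^ y + 2 ^ z + 1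

theorem result (ε κ : ℝ) (hε : 0 < ε) (hκ : 0 < κ) :
    -- (1)
    (∀ k : ℕ, ∃ δ : ℝ, 0 < δ ∧ ∃ n₀ : ℕ, ∀ n K : ℕ, n₀ ≤ n → Odd n → 0 < K →
      (K : ℝ) ≤ (n : ℝ) ^ δ → Admissible n K → ∀ P : Finset ℕ, P.card ≤ k →
      (∀ p ∈ P, p.Prime ∧
        (Admissible n (orderOf (2 : ZMod p)) ∨ (n : ℝ) ^ κ ≤ (orderOf (2 : ZMod p) : ℝ))) →
      ManyAvoiding n K ε P) ∧
    -- (2)
    (∃ c : ℝ, 0 < c ∧ ∃ n₀ : ℕ, ∀ n K k : ℕ, n₀ ≤ n → Odd n → 0 < K →
      ((K : ℝ) + 1) ^ (k + 1) ≤ (n : ℝ) ^ c → Admissible n K → ∀ P : Finset ℕ, P.card ≤ k →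
      (∀ p ∈ P, p.Prime ∧ (n : ℝ) ^ κ ≤ (orderOf (2 : ZMod p) : ℝ)) →
      ManyAvoiding n K ε P) :=
  ⟨fun k => Pool.Agent.Q255.CV.few ε κ hε hκ k, Pool.Agent.Q255.CV.large ε κ hε hκ⟩

end Pool.Agent.Results.MP_f6c7cf_nt.CoveringPrimes
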