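import Pool.Agent.Q249.CF.Main

set_option autoImplicit false

/-!
# MP_f6c7cf_nt: how many numbers `2^x + 2^y + 2^z + 1` are divisible by given primes

For odd `n` the quadruples `(x, y, z, w)` of natural numbers with `n = x² + y² + z² + 4 w²` are
considered. For an odd prime `q` let `m` be the order of `2` modulo `q`.

* Every odd prime `q` divides `2^x + 2^y + 2^z + 1` for at most
  `C n ^ ε (m^(2/3) + m^2 / q) (√n + n / m)` of these quadruples.
* Let `Q` be a set of odd primes for which the sum of all `(m^(2/3) + m^2 / q) (1 / √n + 1 / m)` is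
  at most `n ^ (-ε)`; for example `n ^ (θ/3 - 2ε)` primes with `n ^ θ ≤ m ≤ n ^ (3/4 - θ/2)` and
  `m ^ 4 ≤ q ^ 3`. For large odd `n` there are at least `n ^ (1 - ε)` quadruples for which
  `2^x + 2^y + 2^z + 1` is divisible by no prime of `Q`, and by no prime factor of `2 (2^K - 1)`,
  where `K ≤ n ^ δ` is prescribed and tame for `n`: `3 ∣ n` or `n ≡ 13 mod 32` or `3` does not
  divide `K`, and no prime `l ≥ 5` with `l² ∣ K` divides `(3n - 2)(9n - 2)`.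

The proof. For given `x` with `2^x ≠ -1` the equation `2^y + 2^z = -1 - 2^x` in the field with `q`
elements has at most `7 m^(2/3) + m^2 / q` solutions `(2^y, 2^z)`: this is the theorem of
Heath-Brown and Konyagin if `m ^ 4 < q ^ 3`, and otherwise it is the bound `m^2 / q + √q`, which
follows from the second moment over all pairs `(a, b)` of the number of `h` in the group of the
powers of `2` for which `a h - b` is in this group too. So there are at most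
`(7 m^(2/3) + m^2 / q + 1) (√n / m + 1) (√n + 1)` pairs `(x, y)`, each of which belongs to at most
`n ^ o(1)` quadruples by the divisor bound. The second part follows from this and from the starting
result on small primes, which provides `n ^ (1 - η)` quadruples for `K`.
-/

namespace Pool.Agent.Results.MP_f6c7cf_nt.ManyPrimesAtOnce

open Pool.Agent.Q249.CF (Tame)

theorem result (ε : ℝ) (hε : 0 < ε) :
    (∃ C : ℝ, 0 < C ∧ ∀ n q : ℕ, 1 ≤ n → q.Prime → q ≠ 2 → ∀ T : Finset (ℕ × ℕ × ℕ × ℕ),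
      (∀ x y z w : ℕ, (x, y, z, w) ∈ T →
        n = x ^ 2 + y ^ 2 + z ^ 2 + 4 * w ^ 2 ∧ q ∣ 2 ^ x + 2 ^ y + 2 ^ z + 1) →
      (T.card : ℝ) ≤ C * (n : ℝ) ^ ε *
        (((orderOf (2 : ZMod q) : ℝ) ^ (2 / 3 : ℝ) + (orderOf (2 : ZMod q) : ℝ) ^ 2 / q) *
          ((n : ℝ) ^ (1 / 2 : ℝ) + n / orderOf (2 : ZMod q)))) ∧
    ∃ δ : ℝ, 0 < δ ∧ ∃ n₀ : ℕ, ∀ n K : ℕ,
      n₀ ≤ n → Odd n → 0 < K → (K : ℝ) ≤ (n : ℝ) ^ δ → Tame n K → ∀ Q : Finset ℕ,
      (∀ q ∈ Q, q.Prime ∧ q ≠ 2) →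
      ∑ q ∈ Q, (((orderOf (2 : ZMod q) : ℝ) ^ (2 / 3 : ℝ) + (orderOf (2 : ZMod q) : ℝ) ^ 2 / q) *
        (1 / (n : ℝ) ^ (1 / 2 : ℝ) + 1 / orderOf (2 : ZMod q))) ≤ (n : ℝ) ^ (-ε) →
      ∃ S : Finset (ℕ × ℕ × ℕ × ℕ), (n : ℝ) ^ (1 - ε) ≤ (S.card : ℝ) ∧
        ∀ x y z w : ℕ, (x, y, z, w) ∈ S → n = x ^ 2 + y ^ 2 + z ^ 2 + 4 * w ^ 2 ∧
          Nat.Coprime (2 ^ x + 2 ^ y + 2 ^ z + 1) (2 * (2 ^ K - 1)) ∧
          ∀ q ∈ Q, ¬ q ∣ 2 ^ x + 2 ^ y + 2 ^ z + 1 := by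
  refine ⟨?_, Pool.Agent.Q249.CF.many ε hε⟩
  obtain ⟨C, hC, h⟩ := Pool.Agent.Q249.CF.kill ε hε
  exact ⟨C, hC, fun n q hn hq h2 T hT => h n q hn hq (Pool.Agent.Q249.CF.order_pos hq h2) T hT⟩

end Pool.Agent.Results.MP_f6c7cf_nt.ManyPrimesAtOnce
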