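import Pool.Agent.Q48.FS.Two

set_option autoImplicit false

/-!
# Prime factors `q` of `2 ^ x + 2 ^ y + 2 ^ z + 1` for which `q - 1` has a very large prime factor

Q1 asks for a representation `n = x² + y² + z² + 4 w²` of every odd `n` for which `2 ^ x + 2 ^ y + 2 ^ z + 1` is a prime.
For all large odd `n` and for all but a proportion `ε` of the primitive representations of `n` in natural numbers the number
`2 ^ x + 2 ^ y + 2 ^ z + 1` has no prime factor `q = h r + 1` with a prime `r`, `r₀ ≤ r ≤ n ^ δ`, `h ^ 4 ≤ log r / log 2`.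
-/

namespace Pool.Agent.Results.MP_f6c7cf_nt.VeryLargePrimeFactors

open Finset

/-- the primitive representations `n = x² + y² + z² + 4 w²` in natural numbers -/
def Rep (n : ℕ) : Set (Fin 4 → ℕ) :=
  {x | x 0 ^ 2 + x 1 ^ 2 + x 2 ^ 2 + 4 * x 3 ^ 2 = n ∧ ∀ l : ℕ, l.Prime → ∃ i, ¬ l ∣ x i}

open Pool.Agent.W65.FS Pool.Agent.Q48.FS

/-- the integer vector `(x, y, z, 2 w)` -/
def vec (x : Fin 4 → ℕ) : Fin 4 → ℤ := ![(x 0 : ℤ), (x 1 : ℤ), (x 2 : ℤ), 2 * (x 3 : ℤ)]

lemma vec_inj : Function.Injective vec := by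
  intro x y h
  have h0 := congrFun h 0
  have h1 := congrFun h 1
  have h2 := congrFun h 2
  have h3 := congrFun h 3
  simp only [vec, Matrix.cons_val_zero, Matrix.cons_val_one, Matrix.cons_val] at h0 h1 h2 h3
  funext i
  fin_cases i
  · exact_mod_cast h0
  · exact_mod_cast h1
  · exact_mod_cast h2
  · have : (x 3 : ℤ) = y 3 := by linarith
    exact_mod_cast this

lemma vec_mem (n : ℕ) (hn : Odd n) (x : Fin 4 → ℕ) (hx : x ∈ Rep n) : vec x ∈ preps n := by
  rw [mem_preps]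
  obtain ⟨h1, h2⟩ := hx
  have h1' : (x 0 : ℤ) ^ 2 + (x 1 : ℤ) ^ 2 + (x 2 : ℤ) ^ 2 + 4 * (x 3 : ℤ) ^ 2 = n := by exact_mod_cast h1
  refine ⟨?_, fun l hl => ?_⟩
  · rw [Fin.sum_univ_four]
    simp only [vec, Matrix.cons_val_zero, Matrix.cons_val_one, Matrix.cons_val]
    linarith
  · by_contra hcon
    push Not at hcon
    have h30 := hcon 0
    have h31 := hcon 1
    have h32 := hcon 2
    have h33 := hcon 3
    simp only [vec, Matrix.cons_val_zero, Matrix.cons_val_one, Matrix.cons_val] at h30 h31 h32 h33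
    by_cases hl2 : l = 2
    · subst hl2
      have h5 : ((2 : ℕ) : ℤ) ∣ (n : ℤ) := by
        rw [← h1']
        refine dvd_add (dvd_add (dvd_add ?_ ?_) ?_) ?_
        · exact Dvd.dvd.pow h30 (by norm_num)
        · exact Dvd.dvd.pow h31 (by norm_num)
        · exact Dvd.dvd.pow h32 (by norm_num)
        · exact Dvd.dvd.mul_right (by norm_num) _
      have h6 : 2 ∣ n := by exact_mod_cast h5
      exact (Nat.not_even_iff_odd.2 hn) (even_iff_two_dvd.2 h6)
    · obtain ⟨i, hi⟩ := h2 l hl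
      apply hi
      fin_cases i
      · exact Int.natCast_dvd_natCast.1 h30
      · exact Int.natCast_dvd_natCast.1 h31
      · exact Int.natCast_dvd_natCast.1 h32
      · rcases (Nat.prime_iff_prime_int.1 hl).dvd_or_dvd h33 with h4 | h4
        · exfalso
          have h5 : l ∣ 2 := by exact_mod_cast h4
          exact hl2 ((Nat.prime_dvd_prime_iff_eq hl Nat.prime_two).1 h5)
        · exact Int.natCast_dvd_natCast.1 h4

/-- an even coordinate -/
lemma exists_even (n : ℕ) (hn : Odd n) (X : Fin 4 → ℤ) (hX : ∑ i, X i ^ 2 = n) : ∃ i, (2 : ℤ) ∣ X i := by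
  by_contra hcon
  push Not at hcon
  have h1 : ∀ i, Odd (X i) := fun i => by
    rcases Int.even_or_odd (X i) with h | h
    · exact absurd h.two_dvd (hcon i)
    · exact h
  have h2 : Even (∑ i, X i ^ 2) := by
    rw [Fin.sum_univ_four]
    exact (((h1 0).pow.add_odd (h1 1).pow).add_odd (h1 2).pow).add_odd (h1 3).pow
  rw [hX] at h2
  have h3 : Even n := by exact_mod_cast h2
  exact (Nat.not_even_iff_odd.2 hn) h3

open Classical in
lemma even_count (n : ℕ) (hn : Odd n) : (preps n).card ≤ 4 * ((preps n).filter (fun X => (2 : ℤ) ∣ X 3)).card := by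
  have hsub : preps n ⊆ (univ : Finset (Fin 4)).biUnion fun i =>
      ((preps n).filter (fun X => (2 : ℤ) ∣ X 3)).image (fun X => X ∘ (Equiv.swap i 3)) := by
    intro X hX
    have hX' := (mem_preps n X).1 hX
    obtain ⟨i, hi⟩ := exists_even n hn X hX'.1
    rw [mem_biUnion]
    refine ⟨i, mem_univ i, ?_⟩
    rw [mem_image]
    refine ⟨X ∘ (Equiv.swap i 3), ?_, ?_⟩
    · rw [mem_filter, mem_preps]
      refine ⟨⟨?_, fun l hl => ?_⟩, ?_⟩
      · rw [← hX'.1]
        exact Equiv.sum_comp (Equiv.swap i 3) (fun j => X j ^ 2)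
      · obtain ⟨j, hj⟩ := hX'.2 l hl
        refine ⟨Equiv.swap i 3 j, ?_⟩
        simpa using hj
      · simpa using hi
    · funext j
      simp
  refine (card_le_card hsub).trans (card_biUnion_le.trans ?_)
  calc ∑ i : Fin 4, (((preps n).filter (fun X => (2 : ℤ) ∣ X 3)).image (fun X => X ∘ (Equiv.swap i 3))).card
      ≤ ∑ _i : Fin 4, ((preps n).filter (fun X => (2 : ℤ) ∣ X 3)).card := sum_le_sum fun i _ => card_image_le
    _ = _ := by simp

lemma Rep_card (n : ℕ) (hn : Odd n) : (preps n).card ≤ 64 * (Rep n).ncard := by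
  classical
  have h1 := even_count n hn
  have h2 := card_abs_fiber ((preps n).filter (fun X => (2 : ℤ) ∣ X 3))
  have hfin : (Rep n).Finite := by
    refine Set.Finite.of_finite_image (f := vec) ((preps n).finite_toSet.subset ?_) vec_inj.injOn
    rintro _ ⟨x, hx, rfl⟩
    exact vec_mem n hn x hx
  have h3 : (((preps n).filter (fun X => (2 : ℤ) ∣ X 3)).image (fun X : Fin 4 → ℤ => fun i => (X i).natAbs)).card ≤ (Rep n).ncard := by
    rw [← Set.ncard_coe_finset]
    refine Set.ncard_le_ncard_of_injOn (fun x : Fin 4 → ℕ => ![x 0, x 1, x 2, x 3 / 2]) ?_ ?_ hfin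
    · intro x hx
      rw [mem_coe, mem_image] at hx
      obtain ⟨X, hX, rfl⟩ := hx
      rw [mem_filter, mem_preps] at hX
      obtain ⟨⟨h4, h5⟩, h6⟩ := hX
      obtain ⟨k, hk⟩ : 2 ∣ (X 3).natAbs := by
        have := Int.natAbs_dvd_natAbs.2 h6
        simpa using this
      have h7 : (((X 0).natAbs ^ 2 + (X 1).natAbs ^ 2 + (X 2).natAbs ^ 2 + (X 3).natAbs ^ 2 : ℕ) : ℤ) = n := by
        rw [Fin.sum_univ_four] at h4
        push_cast
        simpa only [sq_abs] using h4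
      have h8 : (X 0).natAbs ^ 2 + (X 1).natAbs ^ 2 + (X 2).natAbs ^ 2 + (X 3).natAbs ^ 2 = n := by exact_mod_cast h7
      refine ⟨?_, fun l hl => ?_⟩
      · simp only [Matrix.cons_val_zero, Matrix.cons_val_one, Matrix.cons_val]
        rw [hk] at h8 ⊢
        rw [Nat.mul_div_cancel_left k (by norm_num)]
        linarith
      · by_contra hcon
        push Not at hcon
        have h30 := hcon 0
        have h31 := hcon 1
        have h32 := hcon 2
        have h33 := hcon 3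
        simp only [Matrix.cons_val_zero, Matrix.cons_val_one, Matrix.cons_val] at h30 h31 h32 h33
        rw [hk, Nat.mul_div_cancel_left k (by norm_num)] at h33
        obtain ⟨i, hi⟩ := h5 l hl
        apply hi
        rw [Int.natCast_dvd]
        fin_cases i
        · exact h30
        · exact h31
        · exact h32
        · show l ∣ (X 3).natAbs
          rw [hk]
          exact h33.mul_left 2
    · intro x hx y hy hxy
      rw [mem_coe, mem_image] at hx hy
      obtain ⟨X, hX, rfl⟩ := hx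
      obtain ⟨Y, hY, rfl⟩ := hy
      rw [mem_filter] at hX hY
      have h0 := congrFun hxy 0
      have h1 := congrFun hxy 1
      have h2 := congrFun hxy 2
      have h3 := congrFun hxy 3
      simp only [Matrix.cons_val_zero, Matrix.cons_val_one, Matrix.cons_val] at h0 h1 h2 h3
      have h6 : 2 ∣ (X 3).natAbs := by
        have := Int.natAbs_dvd_natAbs.2 hX.2
        simpa using this
      have h7 : 2 ∣ (Y 3).natAbs := by
        have := Int.natAbs_dvd_natAbs.2 hY.2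
        simpa using this
      funext i
      fin_cases i
      · exact h0
      · exact h1
      · exact h2
      · show (X 3).natAbs = (Y 3).natAbs
        omega
  omega

/-- **Almost all representations avoid all these primes.** -/
theorem result (ε : ℝ) (hε : 0 < ε) : ∃ δ : ℝ, 0 < δ ∧ ∃ r₀ n₀ : ℕ, ∀ n : ℕ, Odd n → n₀ ≤ n →
    (n : ℝ) ^ (1 - ε) ≤ (Rep n).ncard ∧
    (({x | x ∈ Rep n ∧ ∃ q r h : ℕ, q.Prime ∧ r.Prime ∧ q = h * r + 1 ∧ h ^ 4 ≤ Nat.log 2 r ∧ r₀ ≤ r ∧ (r : ℝ) ≤ (n : ℝ) ^ δ ∧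
      q ∣ 2 ^ x 0 + 2 ^ x 1 + 2 ^ x 2 + 1} : Set (Fin 4 → ℕ)).ncard : ℝ) ≤ ε * (Rep n).ncard := by
  classical
  obtain ⟨δ, hδ, r₀, n₁, h⟩ := almost_all (ε / 64) (by positivity)
  obtain ⟨n₂, h'⟩ := preps_card_lower ε hε
  refine ⟨δ, hδ, r₀ + 3, n₁ + n₂, fun n hn hn0 => ?_⟩
  have h1 := h n hn (by omega) (B3 n) (fun r hr hr2 => ⟨filter_subset _ _, card_B3 n r hr hr2⟩)
  have h2 := h' n hn (by omega)
  have h3 : ((preps n).card : ℝ) ≤ 64 * (Rep n).ncard := by exact_mod_cast Rep_card n hn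
  constructor
  · linarith
  · have hfin : ({X | X ∈ preps n ∧ ∃ r : ℕ, r.Prime ∧ r₀ ≤ r ∧ (r : ℝ) ≤ (n : ℝ) ^ δ ∧ red r X ∈ B3 n r} : Set (Fin 4 → ℤ)).Finite :=
      (preps n).finite_toSet.subset fun X hX => hX.1
    have h4 : ({x | x ∈ Rep n ∧ ∃ q r h : ℕ, q.Prime ∧ r.Prime ∧ q = h * r + 1 ∧ h ^ 4 ≤ Nat.log 2 r ∧ r₀ + 3 ≤ r ∧
        (r : ℝ) ≤ (n : ℝ) ^ δ ∧ q ∣ 2 ^ x 0 + 2 ^ x 1 + 2 ^ x 2 + 1} : Set (Fin 4 → ℕ)).ncard ≤
        ({X | X ∈ preps n ∧ ∃ r : ℕ, r.Prime ∧ r₀ ≤ r ∧ (r : ℝ) ≤ (n : ℝ) ^ δ ∧ red r X ∈ B3 n r} : Set (Fin 4 → ℤ)).ncard := by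
      refine Set.ncard_le_ncard_of_injOn vec ?_ vec_inj.injOn hfin
      rintro x ⟨hx, q, r, h, hq, hr, rfl, hh, hr0, hrn, hd⟩
      have hX := vec_mem n hn x hx
      have hh1 : 1 ≤ h := by
        rcases Nat.eq_zero_or_pos h with h0 | h0
        · exfalso
          rw [h0, zero_mul, zero_add] at hq
          exact Nat.not_prime_one hq
        · exact h0
      have hhm : h ∈ mult r := mem_mult.2 ⟨⟨hh1, hh⟩, hq⟩
      have hr2 : r ≠ 2 := by omega
      have hrq : r ≤ h * r := Nat.le_mul_of_pos_left r hh1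
      refine ⟨hX, r, hr, by omega, hrn, ?_⟩
      unfold B3
      rw [mem_filter]
      refine ⟨?_, h, hhm, fun _ => 1, ?_, ?_⟩
      · have h5 := (mem_preps n _).1 hX
        exact red_mem n r hr _ h5.1 ((gc_iff _).2 h5.2)
      · unfold signs
        rw [Fintype.mem_piFinset]
        intro i
        simp
      · have h5 := mem_E3 (h * r + 1) r hq (by omega) (dvd_od r h hr hr2 hhm).1 _ _ _ hd
        have e0 : (1 * red r (vec x) 0) % (r : ℤ) = ((x 0 : ℕ) : ℤ) % r := by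
          unfold red vec
          rw [one_mul]
          simp
        have e1 : (1 * red r (vec x) 1) % (r : ℤ) = ((x 1 : ℕ) : ℤ) % r := by
          unfold red vec
          rw [one_mul]
          simp
        have e2 : (1 * red r (vec x) 2) % (r : ℤ) = ((x 2 : ℕ) : ℤ) % r := by
          unfold red vec
          rw [one_mul]
          simp
        rw [e0, e1, e2]
        exact h5
    have h5 : ((({x | x ∈ Rep n ∧ ∃ q r h : ℕ, q.Prime ∧ r.Prime ∧ q = h * r + 1 ∧ h ^ 4 ≤ Nat.log 2 r ∧ r₀ + 3 ≤ r ∧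
        (r : ℝ) ≤ (n : ℝ) ^ δ ∧ q ∣ 2 ^ x 0 + 2 ^ x 1 + 2 ^ x 2 + 1} : Set (Fin 4 → ℕ)).ncard : ℕ) : ℝ) ≤
        (({X | X ∈ preps n ∧ ∃ r : ℕ, r.Prime ∧ r₀ ≤ r ∧ (r : ℝ) ≤ (n : ℝ) ^ δ ∧ red r X ∈ B3 n r} : Set (Fin 4 → ℤ)).ncard : ℝ) := by
      exact_mod_cast h4
    refine h5.trans (h1.trans ?_)
    calc ε / 64 * ((preps n).card : ℝ) ≤ ε / 64 * (64 * (Rep n).ncard) := by gcongr
      _ = _ := by ring

end Pool.Agent.Results.MP_f6c7cf_nt.VeryLargePrimeFactors
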